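import Pool.Agent.L7h20.TM4.NumDefs
import Pool.Agent.L7h20.TM3.SInt

set_option autoImplicit false

/-! TM4 (project of helper20): the limit integral, proof of `P_NUM`. -/

namespace Pool.Agent.L7h17.TM4

open Finset Filter Topology MeasureTheory Pool.Agent.H306R2
open Pool.Agent.TH535 (GdI GdI_nonneg)
open Pool.Agent.Y756.T (m3 GdI3 GdI_meas fubS fub2 ins_meas beta_int Gam_half gd1)
open Pool.Agent.L7h20.TM3 (WU gd_zero abs_chord m3h_pos)
open Pool.Agent.L7h20.TM4 (pk qk P_NUM)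
open scoped ENNReal

noncomputable section

/-- moments of a gamma density with a sharp cut-off -/
lemma mom {m : ℝ} (hm : 0 < m) {r : ℝ} (hr : 0 < r) (n : ℕ) :
    Integrable (fun x => gd m x * ct r x * x ^ n) ∧
    ∫ x, gd m x * ct r x * x ^ n = r ^ m / Real.Gamma (m + 1) * (m / (m + n) * r ^ n) := by
  have hmn : 0 < m + n := by positivity
  have g1 := (Real.Gamma_pos_of_pos hm).ne'
  have g2 := (Real.Gamma_pos_of_pos hmn).ne'
  have key : ∀ x, gd m x * ct r x * x ^ n =
      Real.Gamma (m + n) / Real.Gamma m * (gd (m + n) x * ct r x) := by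
    intro x
    unfold gd
    split_ifs with h
    · have : x ^ (m + n - 1 : ℝ) = x ^ (m - 1) * x ^ n := by
        rw [show m + (n : ℝ) - 1 = (m - 1) + (n : ℝ) by ring, Real.rpow_add_natCast h.ne']
      rw [this]
      field_simp
    · ring
  simp only [key]
  refine ⟨(gd_ct_integrable hmn r).const_mul _, ?_⟩
  rw [integral_const_mul, gd_ct_integral hmn, max_eq_left hr.le, Real.Gamma_add_one hmn.ne',
    Real.Gamma_add_one hm.ne', Real.rpow_add_natCast hr.ne']
  field_simp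

/-- polynomial moments -/
lemma polyint {m : ℝ} (hm : 0 < m) {r : ℝ} (hr : 0 < r) (a : ℕ → ℝ) (N : ℕ) :
    Integrable (fun x => gd m x * ct r x * ∑ k ∈ range N, a k * x ^ k) ∧
    ∫ x, gd m x * ct r x * ∑ k ∈ range N, a k * x ^ k =
      r ^ m / Real.Gamma (m + 1) * ∑ k ∈ range N, a k * (m / (m + k) * r ^ k) := by
  have e : (fun x => gd m x * ct r x * ∑ k ∈ range N, a k * x ^ k) =
      fun x => ∑ k ∈ range N, a k * (gd m x * ct r x * x ^ k) := by
    funext x
    rw [mul_sum]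
    exact sum_congr rfl fun k _ => by ring
  rw [e]
  have hi : ∀ k ∈ range N, Integrable (fun x => a k * (gd m x * ct r x * x ^ k)) :=
    fun k _ => (mom hm hr k).1.const_mul _
  refine ⟨integrable_finsetSum _ hi, ?_⟩
  rw [integral_finsetSum _ hi, mul_sum]
  refine sum_congr rfl fun k _ => ?_
  rw [integral_const_mul, (mom hm hr k).2]
  ring

/-- the last integration -/
lemma outer {θ : ℝ} (hθ : 0 < θ) (a : ℕ → ℝ) (N : ℕ) :
    Integrable (fun g => gd (1 / 4) g * ∑ k ∈ range N, a k * (max (θ - g) 0) ^ (k + 1)) ∧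
    ∫ g, gd (1 / 4) g * ∑ k ∈ range N, a k * (max (θ - g) 0) ^ (k + 1) =
      ∑ k ∈ range N, a k * (θ ^ (1 / 4 + ((k + 1 : ℕ) : ℝ)) * Real.Gamma (((k + 1 : ℕ) : ℝ) + 1) /
        Real.Gamma (1 / 4 + ((k + 1 : ℕ) : ℝ) + 1)) := by
  have e : (fun g => gd (1 / 4) g * ∑ k ∈ range N, a k * (max (θ - g) 0) ^ (k + 1)) =
      fun g => ∑ k ∈ range N, a k * (gd (1 / 4) g * (max (θ - g) 0) ^ ((k + 1 : ℕ) : ℝ)) := by
    funext g
    rw [mul_sum]
    refine sum_congr rfl fun k _ => ?_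
    rw [Real.rpow_natCast]
    ring
  have hb : ∀ k : ℕ, (0 : ℝ) < ((k + 1 : ℕ) : ℝ) := fun k => by positivity
  have hi : ∀ k ∈ range N, Integrable (fun g => a k * (gd (1 / 4) g *
      (max (θ - g) 0) ^ ((k + 1 : ℕ) : ℝ))) :=
    fun k _ => (beta_int (a := 1 / 4) (by norm_num) (hb k) hθ).1.const_mul _
  rw [e]
  refine ⟨integrable_finsetSum _ hi, ?_⟩
  rw [integral_finsetSum _ hi]
  refine sum_congr rfl fun k _ => ?_
  rw [integral_const_mul, (beta_int (a := 1 / 4) (by norm_num) (hb k) hθ).2]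

/-- the integrand for `y ≤ x`, without the densities -/
def F (x y g : ℝ) : ℝ := pk (x - y) (x + y + 2 * g) * (1 - 241 / 259 * (x + y))

/-- the majorant for `y ≤ x` -/
def Hl (x y g : ℝ) : ℝ := gd (1 / 4) g * (gd (1 / 2) x * ct (259 / 500 - g) x) *
  (gd (1 / 2) y * ct x y * F x y g)

lemma quart (z : ℝ) : 0 ≤ 22595 / 10000 - 74791 / 100000 * z + 150378 / 1000000 * z ^ 2 -
    131791 / 10000000 * z ^ 3 + 40941 / 100000000 * z ^ 4 -
    293 / 10000 * (31044 / 1000 - z) + 1 / 10000 := by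
  nlinarith [sq_nonneg (z ^ 2 - 658955 / 40941 * z + 50), sq_nonneg (z - 8.8), sq_nonneg (z - 8.9),
    sq_nonneg (z - 8.834)]

lemma pk_nonneg {x y g : ℝ} (hx : x ≤ 259 / 500 - g) : 0 ≤ pk (x - y) (x + y + 2 * g) := by
  have h1 := quart (29 * (x - y))
  unfold pk
  nlinarith

lemma F_nonneg {x y g : ℝ} (hy : y ≤ x) (hg : 0 ≤ g) (hx : x ≤ 259 / 500 - g) :
    0 ≤ F x y g := by
  unfold F
  refine mul_nonneg (pk_nonneg hx) ?_
  linarith

lemma Hl_nonneg (x y g : ℝ) : 0 ≤ Hl x y g := by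
  unfold Hl
  by_cases hg : 0 < g
  swap
  · rw [gd_zero hg]; simp
  by_cases h1 : x ≤ 259 / 500 - g
  swap
  · unfold ct; rw [if_neg h1]; simp
  by_cases h2 : y ≤ x
  swap
  · unfold ct; rw [if_neg h2]; simp
  have g1 := gd_nonneg (m := 1 / 4) (by norm_num) g
  have g2 := gd_nonneg (m := 1 / 2) (by norm_num) x
  have g3 := gd_nonneg (m := 1 / 2) (by norm_num) y
  have c1 := ct_nonneg (259 / 500 - g) x
  have c2 := ct_nonneg x y
  have hF := F_nonneg h2 hg.le h1
  positivity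

lemma Hl_maj {W : ℝ → ℝ} {θ θ' : ℝ} (hW : WU W θ θ') (h2 : θ' ≤ 518 / 1000)
    (x y g : ℝ) :
    GdI (m3 (1 / 2)) ![x, y, g] * qk W ![x, y, g] ≤ Hl x y g + Hl y x g ∧
    0 ≤ GdI (m3 (1 / 2)) ![x, y, g] * qk W ![x, y, g] := by
  have n1 := Hl_nonneg x y g
  have n2 := Hl_nonneg y x g
  unfold qk
  simp only [Matrix.cons_val_zero, Matrix.cons_val_one, Matrix.cons_val]
  rw [GdI3]
  by_cases hg : 0 < g
  swap
  · rw [gd_zero hg]; simp only [mul_zero, zero_mul]; exact ⟨by linarith, le_refl _⟩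
  by_cases hx : 0 < x
  swap
  · rw [gd_zero hx]; simp only [mul_zero, zero_mul]; exact ⟨by linarith, le_refl _⟩
  by_cases hy : 0 < y
  swap
  · rw [gd_zero hy]; simp only [mul_zero, zero_mul]; exact ⟨by linarith, le_refl _⟩
  by_cases h3 : θ' ≤ x + g
  · rw [hW.z _ h3]; simp only [mul_zero, zero_mul]; exact ⟨by linarith, le_refl _⟩
  by_cases h4 : θ' ≤ y + g
  · rw [hW.z _ h4]; simp only [mul_zero, zero_mul]; exact ⟨by linarith, le_refl _⟩
  push Not at h3 h4
  have g1 := gd_nonneg (m := 1 / 4) (by norm_num) g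
  have g2 := gd_nonneg (m := 1 / 2) (by norm_num) x
  have g3 := gd_nonneg (m := 1 / 2) (by norm_num) y
  have w1 := hW.nn (x + g)
  have w2 := hW.nn (y + g)
  have w3 : W (x + g) * W (y + g) ≤ 1 := mul_le_one₀ (hW.le _) w2 (hW.le _)
  have ha := abs_chord (θ := 259 / 500) (t := x + y) (by norm_num) (by linarith) (by linarith)
  have ha' : |1 - x - y| ≤ 1 - 241 / 259 * (x + y) := by
    rw [show (1 : ℝ) - x - y = 1 - (x + y) by ring]
    refine ha.trans (le_of_eq ?_)
    norm_num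
  rcases le_total y x with h | h
  · have hp := pk_nonneg (x := x) (y := y) (g := g) (by linarith)
    rw [abs_of_nonneg (show 0 ≤ x - y by linarith)]
    refine ⟨?_, by positivity⟩
    have e : Hl x y g = gd (1 / 2) x * gd (1 / 2) y * gd (1 / 4) g *
        (1 * pk (x - y) (x + y + 2 * g) * (1 - 241 / 259 * (x + y))) := by
      unfold Hl F ct
      rw [if_pos (show x ≤ 259 / 500 - g by linarith), if_pos h]
      ring
    have e2 : gd (1 / 2) x * gd (1 / 2) y * gd (1 / 4) g *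
        (W (x + g) * W (y + g) * pk (x - y) (x + y + 2 * g) * |1 - x - y|) ≤ Hl x y g := by
      rw [e]
      gcongr
    linarith
  · have hp := pk_nonneg (x := y) (y := x) (g := g) (by linarith)
    rw [abs_of_nonpos (show x - y ≤ 0 by linarith), show -(x - y) = y - x by ring,
      show x + y + 2 * g = y + x + 2 * g by ring]
    refine ⟨?_, by positivity⟩
    have e : Hl y x g = gd (1 / 2) x * gd (1 / 2) y * gd (1 / 4) g *
        (1 * pk (y - x) (y + x + 2 * g) * (1 - 241 / 259 * (x + y))) := by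
      unfold Hl F ct
      rw [if_pos (show y ≤ 259 / 500 - g by linarith), if_pos h]
      ring
    have e2 : gd (1 / 2) x * gd (1 / 2) y * gd (1 / 4) g *
        (W (x + g) * W (y + g) * pk (y - x) (y + x + 2 * g) * |1 - x - y|) ≤ Hl y x g := by
      rw [e]
      gcongr
    linarith

lemma Hl_meas (g : ℝ) : Measurable (fun p : ℝ × ℝ => ENNReal.ofReal (Hl p.1 p.2 g)) := by
  have h1 := gd_meas (1 / 2)
  have h2 := ct_meas (259 / 500 - g)
  have h3 : Measurable (fun p : ℝ × ℝ => ct p.1 p.2) := by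
    unfold ct
    exact Measurable.ite (measurableSet_le measurable_snd measurable_fst) measurable_const
      measurable_const
  unfold Hl F pk
  refine Measurable.ennreal_ofReal ?_
  have m1 : Measurable (fun p : ℝ × ℝ => gd (1 / 2) p.1) := h1.comp measurable_fst
  have m2 : Measurable (fun p : ℝ × ℝ => gd (1 / 2) p.2) := h1.comp measurable_snd
  have m3 : Measurable (fun p : ℝ × ℝ => ct (259 / 500 - g) p.1) := h2.comp measurable_fst
  fun_prop

/-- coefficients of `F x · g` -/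
def aco (x g : ℝ) (k : ℕ) : ℝ := ([(22303/10000) + (-8497/5000) * g + (-637512661/25900000) * x + (2047777/1295000) * x * g + (170478153/1156250) * x ^ 2 + (-1137278565221/2590000000) * x ^ 3 + (15246153162629/25900000000) * x ^ 4 + (-6978586732461/25900000000) * x ^ 5,
  (485997741/25900000) + (2047777/1295000) * g + (-16275203941/64750000) * x + (2802260427303/2590000000) * x ^ 2 + (-5686490535167/3237500000) * x ^ 3 + (20935760197383/25900000000) * x ^ 4,
  (6933205073/64750000) + (-2192685158943/2590000000) * x + (86870374263/50000000) * x ^ 2 + (-6978586732461/12950000000) * x ^ 3,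
  (527703296861/2590000000) + (-226664805359/404687500) * x + (-6978586732461/12950000000) * x ^ 2,
  (-246535206551/25900000000) + (20935760197383/25900000000) * x,
  (-6978586732461/25900000000)] : List ℝ).getD k 0

/-- coefficients after the integration over `y` -/
def bco (g : ℝ) (k : ℕ) : ℝ := ([(22303/10000) + (-8497/5000) * g,
  (-237756707/12950000) + (2047777/971250) * g,
  (41312622017/485625000),
  (-1238874443281/5665625000),
  (34365478417553/127476562500),
  (-4652391154974/38951171875)] : List ℝ).getD k 0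

/-- coefficients after the integration over `x` -/
def cco (k : ℕ) : ℝ := ([3375027/2500000, -13469920039/1942500000, 39776789267/1456875000,
  -1238874443281/22662500000, 34365478417553/637382812500,
  -775398525829/38951171875] : List ℝ).getD k 0

lemma F_eq (x y g : ℝ) : F x y g = ∑ k ∈ range 6, aco x g k * y ^ k := by
  simp only [sum_range_succ, sum_range_zero, aco, List.getD_cons_zero, List.getD_cons_succ]
  unfold F pk
  ring

/-- the polynomial after the integration over `y` -/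
def Q (x g : ℝ) : ℝ := ∑ k ∈ range 6, bco g k * x ^ k

lemma Q_eq (x g : ℝ) : ∑ k ∈ range 6, aco x g k * (1 / 2 / (1 / 2 + k) * x ^ k) = Q x g := by
  unfold Q
  simp only [sum_range_succ, sum_range_zero, aco, bco, List.getD_cons_zero, List.getD_cons_succ]
  push_cast
  ring

lemma gd_half_mul {x : ℝ} (hx : 0 < x) :
    gd (1 / 2) x * (x ^ (1 / 2 : ℝ) / Real.Gamma (3 / 2)) = 2 / Real.pi := by
  unfold gd
  rw [if_pos hx, Gam_half.1, Real.Gamma_one_half_eq]
  have h1 : x ^ (1 / 2 - 1 : ℝ) * x ^ (1 / 2 : ℝ) = 1 := by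
    rw [← Real.rpow_add hx]; norm_num
  have h2 : Real.sqrt Real.pi * Real.sqrt Real.pi = Real.pi := Real.mul_self_sqrt Real.pi_pos.le
  have h3 : 0 < Real.sqrt Real.pi := Real.sqrt_pos.2 Real.pi_pos
  calc x ^ (1 / 2 - 1 : ℝ) / Real.sqrt Real.pi * (x ^ (1 / 2 : ℝ) / (Real.sqrt Real.pi / 2)) =
      2 * (x ^ (1 / 2 - 1 : ℝ) * x ^ (1 / 2 : ℝ)) / (Real.sqrt Real.pi * Real.sqrt Real.pi) := by
        field_simp
    _ = _ := by rw [h1, h2, mul_one]

/-- the integral over `y` -/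
lemma lev1 (x g : ℝ) : ∫⁻ y, ENNReal.ofReal (Hl x y g) =
    ENNReal.ofReal (gd (1 / 4) g * (2 / Real.pi) * (gd 1 x * ct (259 / 500 - g) x * Q x g)) := by
  by_cases hx : 0 < x
  swap
  · have : ∀ y, Hl x y g = 0 := by
      intro y; unfold Hl; rw [gd_zero hx]; ring
    simp only [this]
    rw [gd_zero hx]; simp
  obtain ⟨hi, hv⟩ := polyint (m := 1 / 2) (by norm_num) hx (aco x g) 6
  rw [Q_eq, show (1 / 2 : ℝ) + 1 = 3 / 2 by norm_num] at hv
  have e : ∀ y, Hl x y g = (gd (1 / 4) g * (gd (1 / 2) x * ct (259 / 500 - g) x)) *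
      (gd (1 / 2) y * ct x y * ∑ k ∈ range 6, aco x g k * y ^ k) := by
    intro y; unfold Hl; rw [F_eq]
  have hI := ofReal_integral_eq_lintegral_ofReal
      (hi.const_mul (gd (1 / 4) g * (gd (1 / 2) x * ct (259 / 500 - g) x)))
      (Eventually.of_forall fun y => by
        have := Hl_nonneg x y g
        rw [e y] at this
        exact this)
  simp only [e]
  rw [← hI, integral_const_mul, hv]
  congr 1
  rw [gd1 hx]
  calc gd (1 / 4) g * (gd (1 / 2) x * ct (259 / 500 - g) x) *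
        (x ^ (1 / 2 : ℝ) / Real.Gamma (3 / 2) * Q x g) =
      gd (1 / 4) g * (gd (1 / 2) x * (x ^ (1 / 2 : ℝ) / Real.Gamma (3 / 2))) *
        (ct (259 / 500 - g) x * Q x g) := by ring
    _ = _ := by rw [gd_half_mul hx]; ring

lemma lev1_nonneg (x g : ℝ) :
    0 ≤ gd (1 / 4) g * (2 / Real.pi) * (gd 1 x * ct (259 / 500 - g) x * Q x g) := by
  by_cases hx : 0 < x
  swap
  · rw [gd_zero hx]; simp
  obtain ⟨hi, hv⟩ := polyint (m := 1 / 2) (by norm_num) hx (aco x g) 6
  rw [Q_eq, show (1 / 2 : ℝ) + 1 = 3 / 2 by norm_num] at hv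
  have e : ∀ y, Hl x y g = (gd (1 / 4) g * (gd (1 / 2) x * ct (259 / 500 - g) x)) *
      (gd (1 / 2) y * ct x y * ∑ k ∈ range 6, aco x g k * y ^ k) := by
    intro y; unfold Hl; rw [F_eq]
  have h0 : 0 ≤ ∫ y, Hl x y g := integral_nonneg fun y => Hl_nonneg x y g
  simp only [e] at h0
  rw [integral_const_mul, hv] at h0
  rw [gd1 hx]
  have e2 : gd (1 / 4) g * (2 / Real.pi) * (1 * ct (259 / 500 - g) x * Q x g) =
      gd (1 / 4) g * (gd (1 / 2) x * ct (259 / 500 - g) x) *
        (x ^ (1 / 2 : ℝ) / Real.Gamma (3 / 2) * Q x g) := by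
    rw [← gd_half_mul hx]; ring
  rw [e2]
  exact h0

/-- the integral over `x` -/
lemma lev2 (g : ℝ) : ∫⁻ x, ∫⁻ y, ENNReal.ofReal (Hl x y g) =
    ENNReal.ofReal (2 / Real.pi * (gd (1 / 4) g *
      ∑ k ∈ range 6, cco k * (max (259 / 500 - g) 0) ^ (k + 1))) := by
  simp only [lev1]
  by_cases g1 : g < 259 / 500
  swap
  · have h1 : max (259 / 500 - g) 0 = 0 := max_eq_right (by push Not at g1; linarith)
    have h2 : ∀ x, gd 1 x * ct (259 / 500 - g) x = 0 := by
      intro x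
      by_cases hx : 0 < x
      · unfold ct; rw [if_neg, mul_zero]; push Not at g1 ⊢; linarith
      · rw [gd_zero hx, zero_mul]
    simp only [h1, h2]
    simp
  have hr : 0 < 259 / 500 - g := by linarith
  obtain ⟨hi, hv⟩ := polyint (m := 1) (by norm_num) hr (bco g) 6
  have hI := ofReal_integral_eq_lintegral_ofReal (hi.const_mul (gd (1 / 4) g * (2 / Real.pi)))
      (Eventually.of_forall fun x => lev1_nonneg x g)
  change _ = ∫⁻ x, ENNReal.ofReal (gd (1 / 4) g * (2 / Real.pi) *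
    (gd 1 x * ct (259 / 500 - g) x * Q x g)) at hI
  rw [← hI, integral_const_mul, hv]
  congr 1
  rw [max_eq_left hr.le, Real.rpow_one, show (1 : ℝ) + 1 = 2 by norm_num, Real.Gamma_two]
  have e : (259 / 500 - g) / 1 * ∑ k ∈ range 6, bco g k * (1 / (1 + (k : ℝ)) *
      (259 / 500 - g) ^ k) = ∑ k ∈ range 6, cco k * (259 / 500 - g) ^ (k + 1) := by
    simp only [sum_range_succ, sum_range_zero, cco, bco, List.getD_cons_zero, List.getD_cons_succ]
    push_cast
    ring
  rw [e]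
  ring

lemma lev2_nonneg (g : ℝ) : 0 ≤ 2 / Real.pi * (gd (1 / 4) g *
      ∑ k ∈ range 6, cco k * (max (259 / 500 - g) 0) ^ (k + 1)) := by
  by_cases g1 : g < 259 / 500
  swap
  · have h1 : max (259 / 500 - g) 0 = 0 := max_eq_right (by push Not at g1; linarith)
    rw [h1]
    simp
  have hr : 0 < 259 / 500 - g := by linarith
  obtain ⟨hi, hv⟩ := polyint (m := 1) (by norm_num) hr (bco g) 6
  have h0 : 0 ≤ ∫ x, gd (1 / 4) g * (2 / Real.pi) * (gd 1 x * ct (259 / 500 - g) x *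
      ∑ k ∈ range 6, bco g k * x ^ k) := integral_nonneg fun x => lev1_nonneg x g
  rw [integral_const_mul, hv, Real.rpow_one, show (1 : ℝ) + 1 = 2 by norm_num,
    Real.Gamma_two] at h0
  have e : (259 / 500 - g) / 1 * ∑ k ∈ range 6, bco g k * (1 / (1 + (k : ℝ)) *
      (259 / 500 - g) ^ k) = ∑ k ∈ range 6, cco k * (259 / 500 - g) ^ (k + 1) := by
    simp only [sum_range_succ, sum_range_zero, cco, bco, List.getD_cons_zero, List.getD_cons_succ]
    push_cast
    ring
  rw [e] at h0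
  rw [max_eq_left hr.le]
  refine h0.trans (le_of_eq ?_)
  ring

lemma swapH (g : ℝ) : ∫⁻ x, ∫⁻ y, ENNReal.ofReal (Hl y x g) =
    ∫⁻ x, ∫⁻ y, ENNReal.ofReal (Hl x y g) := by
  refine lintegral_lintegral_swap (f := fun x y => ENNReal.ofReal (Hl y x g)) ?_
  exact ((Hl_meas g).comp measurable_swap).aemeasurable

/-- the value of the last integral -/
lemma lev3 : Integrable (fun g => 2 * (2 / Real.pi * (gd (1 / 4) g *
      ∑ k ∈ range 6, cco k * (max (259 / 500 - g) 0) ^ (k + 1)))) ∧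
    ∫ g, 2 * (2 / Real.pi * (gd (1 / 4) g *
      ∑ k ∈ range 6, cco k * (max (259 / 500 - g) 0) ^ (k + 1))) < (4 / 5) / Real.Gamma (13 / 4) := by
  obtain ⟨hi, hv⟩ := outer (θ := 259 / 500) (by norm_num) cco 6
  refine ⟨(hi.const_mul _).const_mul _, ?_⟩
  rw [integral_const_mul, integral_const_mul, hv]
  have hG : 0 < Real.Gamma (13 / 4) := Real.Gamma_pos_of_pos (by norm_num)
  have G1 : Real.Gamma (13 / 4) = 9 / 4 * Real.Gamma (9 / 4) := by
    rw [show (13 / 4 : ℝ) = 9 / 4 + 1 by norm_num, Real.Gamma_add_one (by norm_num)]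
  have G3 : Real.Gamma (17 / 4) = 13 / 4 * Real.Gamma (13 / 4) := by
    rw [show (17 / 4 : ℝ) = 13 / 4 + 1 by norm_num, Real.Gamma_add_one (by norm_num)]
  have G4 : Real.Gamma (21 / 4) = 17 / 4 * Real.Gamma (17 / 4) := by
    rw [show (21 / 4 : ℝ) = 17 / 4 + 1 by norm_num, Real.Gamma_add_one (by norm_num)]
  have G5 : Real.Gamma (25 / 4) = 21 / 4 * Real.Gamma (21 / 4) := by
    rw [show (25 / 4 : ℝ) = 21 / 4 + 1 by norm_num, Real.Gamma_add_one (by norm_num)]
  have G6 : Real.Gamma (29 / 4) = 25 / 4 * Real.Gamma (25 / 4) := by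
    rw [show (29 / 4 : ℝ) = 25 / 4 + 1 by norm_num, Real.Gamma_add_one (by norm_num)]
  have G1' : Real.Gamma (9 / 4) = Real.Gamma (13 / 4) / (9 / 4) := by rw [G1]; ring
  set T : ℝ := (259 / 500 : ℝ) ^ (5 / 4 : ℝ) with hT
  have hT0 : 0 < T := by positivity
  have hp : ∀ n : ℕ, (259 / 500 : ℝ) ^ (1 / 4 + ((n + 1 : ℕ) : ℝ)) = T * (259 / 500) ^ n := by
    intro n
    rw [hT, ← Real.rpow_add_natCast (by norm_num)]
    congr 1
    push_cast
    ring
  have hf : ∀ n : ℕ, Real.Gamma (((n + 1 : ℕ) : ℝ) + 1) = (n + 1).factorial := by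
    intro n
    exact Real.Gamma_nat_eq_factorial (n + 1)
  simp only [hp, hf]
  simp only [sum_range_succ, sum_range_zero, cco, List.getD_cons_zero, List.getD_cons_succ]
  have f0 : Real.Gamma (1 / 4 + ((0 + 1 : ℕ) : ℝ) + 1) = Real.Gamma (13 / 4) / (9 / 4) := by
    rw [← G1']; norm_num
  have f1 : Real.Gamma (1 / 4 + ((1 + 1 : ℕ) : ℝ) + 1) = Real.Gamma (13 / 4) := by
    norm_num
  have f2 : Real.Gamma (1 / 4 + ((2 + 1 : ℕ) : ℝ) + 1) = 13 / 4 * Real.Gamma (13 / 4) := by
    rw [← G3]; norm_num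
  have f3 : Real.Gamma (1 / 4 + ((3 + 1 : ℕ) : ℝ) + 1) =
      17 / 4 * (13 / 4 * Real.Gamma (13 / 4)) := by
    rw [← G3, ← G4]; norm_num
  have f4 : Real.Gamma (1 / 4 + ((4 + 1 : ℕ) : ℝ) + 1) =
      21 / 4 * (17 / 4 * (13 / 4 * Real.Gamma (13 / 4))) := by
    rw [← G3, ← G4, ← G5]; norm_num
  have f5 : Real.Gamma (1 / 4 + ((5 + 1 : ℕ) : ℝ) + 1) =
      25 / 4 * (21 / 4 * (17 / 4 * (13 / 4 * Real.Gamma (13 / 4)))) := by
    rw [← G3, ← G4, ← G5, ← G6]; norm_num
  rw [f0, f1, f2, f3, f4, f5]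
  set G := Real.Gamma (13 / 4) with hGd
  -- bounds
  have hTb : T ≤ 259 / 500 * (8485 / 10000) := by
    have h1 : T = 259 / 500 * (259 / 500 : ℝ) ^ (1 / 4 : ℝ) := by
      rw [hT, show (5 / 4 : ℝ) = 1 / 4 + 1 by norm_num, Real.rpow_add_one (by norm_num)]
      ring
    rw [h1]
    have h2 : (259 / 500 : ℝ) ^ (1 / 4 : ℝ) ≤ 8485 / 10000 := by
      have h3 : (259 / 500 : ℝ) ≤ (8485 / 10000) ^ (4 : ℝ) := by
        rw [show (4 : ℝ) = ((4 : ℕ) : ℝ) by norm_num, Real.rpow_natCast]; norm_num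
      have h4 := Real.rpow_le_rpow (by norm_num) h3 (show (0 : ℝ) ≤ 1 / 4 by norm_num)
      rw [← Real.rpow_mul (by norm_num)] at h4
      norm_num at h4
      norm_num
      exact h4
    gcongr
  have hpi := Real.pi_gt_d4
  have hpi0 := Real.pi_pos
  have key : 4 * T * (14206 / 10000) < 4 / 5 * Real.pi := by nlinarith
  have e : ∀ R : ℝ, R ≤ 14206 / 10000 → 2 * (2 / Real.pi * (T / G * R)) < 4 / 5 / G := by
    intro R hR
    rw [show 2 * (2 / Real.pi * (T / G * R)) = (4 * T * R / Real.pi) / G by ring]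
    refine div_lt_div_of_pos_right ?_ hG
    rw [div_lt_iff₀ hpi0]
    refine lt_of_le_of_lt ?_ key
    gcongr
  convert e (3375027/2500000 * (9 / 4) + (-13469920039/1942500000) * (259 / 500) * 2 +
    39776789267/1456875000 * (259 / 500) ^ 2 * (24 / 13) +
    (-1238874443281/22662500000) * (259 / 500) ^ 3 * (384 / 221) +
    34365478417553/637382812500 * (259 / 500) ^ 4 * (2560 / 1547) +
    (-775398525829/38951171875) * (259 / 500) ^ 5 * (12288 / 7735)) (by norm_num) using 3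
  simp only [Nat.factorial]
  push_cast
  field_simp
  ring

theorem t_NUM : P_NUM := by
  intro W θ θ' hW h1 h2
  by_cases hint : Integrable (fun u : Fin 3 → ℝ => GdI (m3 (1 / 2)) u * qk W u)
  swap
  · rw [integral_undef hint]
    have := Real.Gamma_pos_of_pos (show (0 : ℝ) < 13 / 4 by norm_num)
    positivity
  have hu : ∀ u : Fin 3 → ℝ, (![u 0, u 1, u 2] : Fin 3 → ℝ) = u := by
    intro u; funext i; fin_cases i <;> rfl
  have hnn : ∀ u : Fin 3 → ℝ, 0 ≤ GdI (m3 (1 / 2)) u * qk W u := by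
    intro u
    have := (Hl_maj hW h2 (u 0) (u 1) (u 2)).2
    rwa [hu] at this
  have h3 := ofReal_integral_eq_lintegral_ofReal hint (Eventually.of_forall hnn)
  have hWm := hW.cont.measurable
  have hqm : Measurable (fun u : Fin 3 → ℝ => qk W u) := by
    unfold qk pk
    have m1 : Measurable (fun u : Fin 3 → ℝ => W (u 0 + u 2)) := hWm.comp (by fun_prop)
    have m2 : Measurable (fun u : Fin 3 → ℝ => W (u 1 + u 2)) := hWm.comp (by fun_prop)
    fun_prop
  have hmeas : Measurable (fun u : Fin 3 → ℝ => ENNReal.ofReal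
      (GdI (m3 (1 / 2)) u * qk W u)) := ((GdI_meas _).mul hqm).ennreal_ofReal
  rw [fubS 2 _ hmeas] at h3
  have h4 : ∀ g : ℝ, ∫⁻ y : Fin 2 → ℝ, ENNReal.ofReal
      (GdI (m3 (1 / 2)) ((2 : Fin 3).insertNth g y) * qk W ((2 : Fin 3).insertNth g y)) ≤
      ENNReal.ofReal (2 * (2 / Real.pi * (gd (1 / 4) g *
      ∑ k ∈ range 6, cco k * (max (259 / 500 - g) 0) ^ (k + 1)))) := by
    intro g
    rw [fub2 (fun y => ENNReal.ofReal
      (GdI (m3 (1 / 2)) ((2 : Fin 3).insertNth g y) * qk W ((2 : Fin 3).insertNth g y)))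
      (hmeas.comp (ins_meas 2 g))]
    have h5 : ∀ x y : ℝ, ENNReal.ofReal
      (GdI (m3 (1 / 2)) ((2 : Fin 3).insertNth g ![x, y]) *
        qk W ((2 : Fin 3).insertNth g ![x, y])) ≤
        ENNReal.ofReal (Hl x y g) + ENNReal.ofReal (Hl y x g) := by
      intro x y
      have e : ((2 : Fin 3).insertNth g ![x, y] : Fin 3 → ℝ) = ![x, y, g] := by
        funext i; fin_cases i <;> rfl
      rw [e, ← ENNReal.ofReal_add (Hl_nonneg _ _ _) (Hl_nonneg _ _ _)]
      exact ENNReal.ofReal_le_ofReal (Hl_maj hW h2 x y g).1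
    refine (lintegral_mono fun x => lintegral_mono fun y => h5 x y).trans ?_
    have h6 : ∀ x, ∫⁻ y, (ENNReal.ofReal (Hl x y g) + ENNReal.ofReal (Hl y x g)) =
        (∫⁻ y, ENNReal.ofReal (Hl x y g)) + ∫⁻ y, ENNReal.ofReal (Hl y x g) := by
      intro x
      refine lintegral_add_left ?_ _
      exact (Hl_meas g).comp measurable_prodMk_left
    simp only [h6]
    rw [lintegral_add_left ?_, swapH, lev2, ← ENNReal.ofReal_add (lev2_nonneg g) (lev2_nonneg g)]
    · refine ENNReal.ofReal_le_ofReal (le_of_eq ?_)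
      ring
    · exact (Hl_meas g).lintegral_prod_right'
  have h7 := h3.le.trans (lintegral_mono h4)
  have h8 := ofReal_integral_eq_lintegral_ofReal lev3.1 (Eventually.of_forall fun g => by
    have := lev2_nonneg g
    show 0 ≤ 2 * _
    linarith)
  rw [← h8] at h7
  have h9 : 0 ≤ ∫ g, 2 * (2 / Real.pi * (gd (1 / 4) g *
      ∑ k ∈ range 6, cco k * (max (259 / 500 - g) 0) ^ (k + 1))) :=
    integral_nonneg fun g => by
      have := lev2_nonneg g
      show 0 ≤ 2 * _
      linarith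
  exact lt_of_le_of_lt ((ENNReal.ofReal_le_ofReal_iff h9).1 h7) lev3.2

end

end Pool.Agent.L7h17.TM4
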